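import Pool.Agent.U66.UP.Hf

set_option autoImplicit false

/-!
# MP_e4715a_lc: a Hanf number for amalgamation below a measurable cardinal

For every infinite `κ` below a measurable cardinal `χ` there is `μ ≥ χ` such that for all
`lam ≥ μ`, every abstract elementary class with vocabulary and Löwenheim-Skolem number at most `κ`
and with `lam`-amalgamation has `ν`-amalgamation for all `ν ≥ χ`, in particular `lam⁺`-amalgamation.
-/

namespace Pool.Agent.Results.MP_e4715a_lc.MeasurableHanf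

open Cardinal FirstOrder
open Pool.Agent.H288R4.LS (AEC)
open Pool.Agent.U66.UP (WAP Measurable transfer hanf_ap)

universe u

theorem result :
    (∀ κ χ : Cardinal.{u}, Measurable χ → κ < χ → ∃ μ : Cardinal.{u}, χ ≤ μ ∧
      ∀ lam : Cardinal.{u}, μ ≤ lam →
        ∀ (L : FirstOrder.Language.{u, u}) (K : AEC L), K.LSat κ → WAP K lam →
          WAP K (Order.succ lam) ∧ ∀ ν : Cardinal.{u}, χ ≤ ν → WAP K ν) ∧
    ((∀ κ : Cardinal.{u}, ∃ χ : Cardinal.{u}, κ < χ ∧ Measurable χ) →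
      ∀ κ : Cardinal.{u}, ℵ₀ ≤ κ → ∃ lam : Cardinal.{u}, κ ≤ lam ∧
        ∀ (L : FirstOrder.Language.{u, u}) (K : AEC L), K.LSat κ → WAP K lam →
          WAP K (Order.succ lam)) := by
  have h : ∀ κ χ : Cardinal.{u}, Measurable χ → κ < χ → ∃ μ : Cardinal.{u}, χ ≤ μ ∧
      ∀ lam : Cardinal.{u}, μ ≤ lam →
        ∀ (L : FirstOrder.Language.{u, u}) (K : AEC L), K.LSat κ → WAP K lam →
          WAP K (Order.succ lam) ∧ ∀ ν : Cardinal.{u}, χ ≤ ν → WAP K ν := by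
    intro κ χ hχ h1
    obtain ⟨μ, hμ, h2⟩ := hanf_ap hχ h1
    refine ⟨μ, hμ, fun lam hl L K hK hw => ?_⟩
    have h3 := h2 L K hK (transfer hK hχ h1 hμ hl hw)
    exact ⟨h3 _ ((hμ.trans hl).trans (Order.le_succ lam)), h3⟩
  refine ⟨h, fun hm κ _ => ?_⟩
  obtain ⟨χ, hlt, hχ⟩ := hm κ
  obtain ⟨μ, hμ, h2⟩ := h κ χ hχ hlt
  exact ⟨μ, hlt.le.trans hμ, fun L K hK hw => (h2 μ le_rfl L K hK hw).1⟩

end Pool.Agent.Results.MP_e4715a_lc.MeasurableHanf
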